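import Mathlib

namespace Pool.Agent.MP_32f763_nt.H80

/-- The continued logarithm digits of `p / q` for integers `p ≥ q ≥ 1`
(the empty list outside that range). Here `k` is the integer with `2 ^ k ≤ p / q < 2 ^ (k + 1)`. -/
def cl (p q : ℕ) : List ℕ :=
  if 1 ≤ q ∧ q ≤ p then
    if p = 2 ^ Nat.log 2 (p / q) * q then [Nat.log 2 (p / q)]
    else if _h : 2 ^ Nat.log 2 (p / q) * q < p then
      Nat.log 2 (p / q) :: cl (2 ^ Nat.log 2 (p / q) * q) (p - 2 ^ Nat.log 2 (p / q) * q)
    else []
  else []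
termination_by p

/-- The number of terms of the continued logarithm of `n` (and `0` for `n = 0`). -/
def L (n : ℕ) : ℤ := (cl n 1).length

/-- The `k`-kernel of an integer sequence. -/
def kernel (k : ℕ) (a : ℕ → ℤ) : Set (ℕ → ℤ) :=
  {f | ∃ e r : ℕ, r < k ^ e ∧ f = fun n => a (k ^ e * n + r)}

/-- `k`-regularity: the `ℤ`-module generated by the `k`-kernel is finitely generated. -/
def IsRegular (k : ℕ) (a : ℕ → ℤ) : Prop := (Submodule.span ℤ (kernel k a)).FG

end Pool.Agent.MP_32f763_nt.H80
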