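import Pool.Agent.MP_32f763_nt.H80.Defs

/-!
# Computations with the length of continued logarithms
-/

namespace Pool.Agent.MP_32f763_nt.H80

/-- The length of the expansion of `p / q`. -/
def len (p q : ℕ) : ℕ := (cl p q).length

lemma log_eq {k q p : ℕ} (hq : 0 < q) (h1 : 2 ^ k * q ≤ p) (h2 : p < 2 ^ (k + 1) * q) :
    Nat.log 2 (p / q) = k :=
  Nat.log_eq_of_pow_le_of_lt_pow ((Nat.le_div_iff_mul_le hq).mpr h1)
    ((Nat.div_lt_iff_lt_mul hq).mpr h2)

lemma len_pow (k : ℕ) {q : ℕ} (hq : 0 < q) : len (2 ^ k * q) q = 1 := by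
  have h0 : 0 < 2 ^ k := by positivity
  have h1 : Nat.log 2 (2 ^ k * q / q) = k := log_eq hq le_rfl (by rw [pow_succ]; nlinarith)
  rw [len, cl, if_pos ⟨hq, Nat.le_mul_of_pos_left _ h0⟩, h1, if_pos rfl]
  rfl

lemma len_step (k : ℕ) {q r : ℕ} (hr : 0 < r) (hr' : r < 2 ^ k * q) :
    len (2 ^ k * q + r) q = 1 + len (2 ^ k * q) r := by
  have h0 : 0 < 2 ^ k := by positivity
  have hq : 0 < q := Nat.pos_of_ne_zero fun h => by simp [h] at hr'
  have h1 : Nat.log 2 ((2 ^ k * q + r) / q) = k :=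
    log_eq hq (Nat.le_add_right _ _) (by rw [pow_succ]; nlinarith)
  rw [len, cl, if_pos ⟨hq, (Nat.le_mul_of_pos_left _ h0).trans (Nat.le_add_right _ _)⟩, h1,
    if_neg (by omega), dif_pos (by omega), Nat.add_sub_cancel_left, List.length_cons, add_comm]
  rfl

lemma len_step' (k : ℕ) {p q a r : ℕ} (ha : a = 2 ^ k * q) (hp : p = a + r) (hr : 0 < r)
    (hr' : r < a) : len p q = 1 + len a r := by
  subst ha hp
  exact len_step k hr hr'

lemma cases_pq {p q : ℕ} (hq : 0 < q) (hpq : q ≤ p) :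
    ∃ k, p = 2 ^ k * q ∨ ∃ r, 0 < r ∧ r < 2 ^ k * q ∧ p = 2 ^ k * q + r := by
  have h0 : p / q ≠ 0 := (Nat.div_pos hpq hq).ne'
  have h1 := (Nat.le_div_iff_mul_le hq).mp (Nat.pow_log_le_self 2 h0)
  have h2 := (Nat.div_lt_iff_lt_mul hq).mp (Nat.lt_pow_succ_log_self one_lt_two (p / q))
  refine ⟨Nat.log 2 (p / q), ?_⟩
  rcases h1.eq_or_lt with h | h
  · exact Or.inl h.symm
  · refine Or.inr ⟨p - 2 ^ Nat.log 2 (p / q) * q, by omega, ?_, by omega⟩
    rw [Nat.pow_succ, mul_assoc, two_mul, mul_add] at h2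
    omega

lemma len_pos {p q : ℕ} (hq : 0 < q) (hpq : q ≤ p) : 1 ≤ len p q := by
  obtain ⟨k, rfl | ⟨r, h1, h2, rfl⟩⟩ := cases_pq hq hpq
  · rw [len_pow k hq]
  · rw [len_step k h1 h2]; omega

lemma len_eq_one {p : ℕ} (hp : 0 < p) (h : len p 1 = 1) : ∃ k, p = 2 ^ k := by
  obtain ⟨k, rfl | ⟨r, h1, h2, rfl⟩⟩ := cases_pq one_pos hp
  · exact ⟨k, mul_one _⟩
  · rw [len_step k h1 h2] at h
    have := len_pos h1 h2.le
    omega

lemma len_scale {c : ℕ} (hc : 0 < c) (p : ℕ) :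
    ∀ q, 0 < q → q ≤ p → len (c * p) (c * q) = len p q := by
  induction p using Nat.strong_induction_on with
  | _ p ih =>
    intro q hq hpq
    obtain ⟨k, rfl | ⟨r, h1, h2, rfl⟩⟩ := cases_pq hq hpq
    · rw [len_pow k hq, mul_left_comm, len_pow k (Nat.mul_pos hc hq)]
    · rw [len_step k h1 h2, len_step' k (a := c * (2 ^ k * q)) (r := c * r) (by ring) (by ring)
        (Nat.mul_pos hc h1) (Nat.mul_lt_mul_of_pos_left h2 hc), ih _ (by omega) r h1 h2.le]

lemma len_double (j : ℕ) {p q : ℕ} (hq : 0 < q) (hpq : q ≤ p) : len (2 ^ j * p) q = len p q := by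
  have hj : 0 < 2 ^ j := by positivity
  obtain ⟨k, rfl | ⟨r, h1, h2, rfl⟩⟩ := cases_pq hq hpq
  · rw [len_pow k hq, ← mul_assoc, ← pow_add, len_pow _ hq]
  · rw [len_step k h1 h2, len_step' (j + k) (a := 2 ^ j * (2 ^ k * q)) (r := 2 ^ j * r) (by ring)
      (by ring) (Nat.mul_pos hj h1) (Nat.mul_lt_mul_of_pos_left h2 hj), len_scale hj _ _ h1 h2.le]

/-- The statement used in the induction for the logarithmic upper bound. -/
def Bd (n : ℕ) : Prop :=
  ∀ j a b, a < 2 ^ n → b < 2 ^ n → 0 < b → b ≤ 2 ^ j * a → len (2 ^ j * a) b ≤ 3 * n + 1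

lemma bd_C {n : ℕ} (h : Bd n) {a b : ℕ} (ha : a < 2 ^ (n + 1)) (hb : b < 2 ^ n) (hb0 : 0 < b)
    (hab : b ≤ a) : len a b ≤ 3 * n + 2 := by
  obtain ⟨k, rfl | ⟨r, h1, h2, rfl⟩⟩ := cases_pq hb0 hab
  · rw [len_pow k hb0]; omega
  · rw [len_step k h1 h2]
    have := h k b r hb (by rw [pow_succ] at ha; omega) h1 h2.le
    omega

lemma bd_B {n : ℕ} (h : Bd n) {a b : ℕ} (ha : a < 2 ^ (n + 1)) (hb0 : 0 < b)
    (hab : b ≤ a) : len a b ≤ 3 * n + 3 := by
  obtain ⟨k, rfl | ⟨r, h1, h2, rfl⟩⟩ := cases_pq hb0 hab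
  · rw [len_pow k hb0]; omega
  · rw [len_step k h1 h2]
    have := bd_C h (a := 2 ^ k * b) (b := r) (by omega) (by rw [pow_succ] at ha; omega) h1 h2.le
    omega

lemma bd_all (n : ℕ) : Bd n := by
  induction n with
  | zero => intro j a b _ hb hb0 _; simp at hb; omega
  | succ n ih =>
    intro j a b ha hb hb0 hab
    obtain ⟨k, h | ⟨r, h1, h2, h⟩⟩ := cases_pq hb0 hab
    · rw [h, len_pow k hb0]; omega
    · rw [h, len_step k h1 h2]
      rcases le_or_gt k j with hkj | hkj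
      · obtain ⟨i, rfl⟩ := Nat.exists_eq_add_of_le hkj
        have hk : 0 < 2 ^ k := by positivity
        have e1 : b ≤ 2 ^ i * a := by
          refine Nat.le_of_mul_le_mul_left ?_ hk
          rw [← mul_assoc, ← pow_add]; omega
        obtain ⟨c, hc⟩ := Nat.exists_eq_add_of_le e1
        have e2 : r = 2 ^ k * c := by
          rw [pow_add, mul_assoc, hc, mul_add] at h; omega
        have e3 : c < b := Nat.lt_of_mul_lt_mul_left (e2 ▸ h2)
        have e4 : 0 < c := Nat.pos_of_ne_zero fun h0 => by simp [h0] at e2; omega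
        rw [e2, len_scale hk _ _ e4 e3.le]
        have := bd_B ih hb e4 e3.le
        omega
      · obtain ⟨i, rfl⟩ := Nat.exists_eq_add_of_lt hkj
        have hj : 0 < 2 ^ j := by positivity
        have e0 : 2 ^ (j + i + 1) * b = 2 ^ j * (2 ^ (i + 1) * b) := by ring
        have e1 : 2 ^ (i + 1) * b ≤ a := by
          refine Nat.le_of_mul_le_mul_left ?_ hj
          omega
        obtain ⟨c, hc⟩ := Nat.exists_eq_add_of_le e1
        have e2 : r = 2 ^ j * c := by
          rw [hc, mul_add] at h; omega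
        have e3 : c < 2 ^ (i + 1) * b := Nat.lt_of_mul_lt_mul_left (a := 2 ^ j) (by omega)
        have e4 : 0 < c := Nat.pos_of_ne_zero fun h0 => by simp [h0] at e2; omega
        rw [e0, e2, len_scale hj _ _ e4 e3.le]
        have e5 : 2 * b ≤ 2 ^ (i + 1) * b := by
          rw [pow_succ']
          have : 0 < 2 ^ i := by positivity
          nlinarith
        rw [pow_succ] at ha
        have := ih (i + 1) b c (by omega) (by omega) e4 e3.le
        omega

lemma len_le {n m : ℕ} (h : n < 2 ^ m) : len n 1 ≤ 3 * m + 4 := by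
  rcases Nat.eq_zero_or_pos n with rfl | hn
  · rw [len, cl]; simp
  · have h1 := bd_all (m + 1) 0 n 1 (by rw [pow_succ]; omega)
      (Nat.one_lt_two_pow (by omega)) one_pos (by omega)
    rw [pow_zero, one_mul] at h1
    omega

lemma len_mersenne (m : ℕ) : ∀ y, y + 1 = 2 ^ (m + 2) → len y 1 = 2 * m + 2 := by
  induction m with
  | zero =>
    intro y hy
    obtain rfl : y = 3 := by omega
    rw [len_step' 1 (a := 2) (r := 1) rfl rfl one_pos one_lt_two]
    have : len 2 1 = 1 := len_pow 1 one_pos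
    omega
  | succ m ih =>
    intro y hy
    obtain ⟨z, hz⟩ : ∃ z, z + 1 = 2 ^ (m + 2) := ⟨2 ^ (m + 2) - 1, by
      have : 0 < 2 ^ (m + 2) := by positivity
      omega⟩
    have h4 : 4 ≤ 2 ^ (m + 2) := by
      rw [pow_add]
      have : 0 < 2 ^ m := by positivity
      omega
    rw [pow_succ] at hy
    rw [len_step' (m + 2) (a := z + 1) (r := z) (by omega) (by omega) (by omega) (by omega),
      len_step' 0 (a := z) (r := 1) (by omega) rfl one_pos (by omega), ih z hz]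
    omega

lemma len_near (m : ℕ) : ∃ D : ℕ, ∀ y q e, y + 1 = 2 ^ (m + 1) → 0 < e → D * e < q →
    2 * m + 2 ≤ len (y * q + e) q := by
  induction m with
  | zero =>
    refine ⟨1, fun y q e hy he hD => ?_⟩
    obtain rfl : y = 1 := by omega
    rw [len_step' 0 (a := q) (r := e) (by omega) (by omega) he (by omega)]
    have := len_pos he (show e ≤ q by omega)
    omega
  | succ m ih =>
    obtain ⟨D, hD⟩ := ih
    refine ⟨D * 2 ^ (m + 1) + 1, fun y q e hy he hq => ?_⟩
    obtain ⟨z, hz⟩ : ∃ z, z + 1 = 2 ^ (m + 1) := ⟨2 ^ (m + 1) - 1, by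
      have : 0 < 2 ^ (m + 1) := by positivity
      omega⟩
    have h2 : 2 ≤ 2 ^ (m + 1) := by
      rw [pow_succ]
      have : 0 < 2 ^ m := by positivity
      omega
    obtain rfl : y = 2 * z + 1 := by rw [pow_succ] at hy; omega
    rw [add_mul, one_mul, mul_assoc] at hq
    obtain ⟨q', rfl⟩ : ∃ q', q = q' + e := ⟨q - e, by omega⟩
    have hq' : D * (2 ^ (m + 1) * e) < q' := by omega
    have hz1 : 1 ≤ z := by omega
    have hq0 : 0 < q' := by omega
    have h3 := hD z q' (2 ^ (m + 1) * e) hz (by positivity) hq'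
    rw [len_step' (m + 1) (a := (z + 1) * (q' + e)) (r := z * (q' + e) + e) (by rw [hz]) (by ring)
        (by omega) (by nlinarith),
      len_step' 0 (a := z * (q' + e) + e) (r := q') (by omega) (by ring) (by omega) (by nlinarith)]
    have e1 : z * (q' + e) + e = z * q' + 2 ^ (m + 1) * e := by rw [← hz]; ring
    rw [e1]
    omega

/-- Three steps of the algorithm on `2 ^ (b + t + 1) - (2 ^ b - 1)`. -/
lemma len_three {b t r n u : ℕ} (hr : r + 1 = 2 ^ b) (hr0 : 0 < r) (hu : r + u = 2 ^ t)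
    (hu0 : 0 < u) (hu1 : u < 2 ^ t * r) (hn : n + r = 2 ^ (b + t + 1)) :
    len n 1 = 3 + len (2 ^ t * r) u := by
  have e1 : 2 ^ (b + t) = (r + 1) * (r + u) := by rw [pow_add, hr, hu]
  have e2 : n = (r + 1) * (r + u) + ((r + u) * r + u) := by
    rw [pow_succ, e1] at hn
    nlinarith
  rw [← hu] at hu1
  rw [len_step' (b + t) (a := (r + 1) * (r + u)) (r := (r + u) * r + u) (by rw [e1, mul_one]) e2
      (by omega) (by nlinarith),
    len_step' 0 (a := (r + u) * r + u) (r := r) (by omega) (by ring) hr0 (by nlinarith),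
    len_step' t (a := (r + u) * r) (r := u) (by rw [hu]) rfl hu0 hu1, hu]
  omega

lemma len_first {m r n : ℕ} (hr : r + 1 = 2 ^ (m + 3)) (hn : n + r = 2 ^ (2 * (m + 3) + 1)) :
    len n 1 = 2 * m + 7 := by
  have h8 : 8 ≤ 2 ^ (m + 3) := by
    rw [pow_add]
    have : 0 < 2 ^ m := by positivity
    omega
  rw [len_three (b := m + 3) (t := m + 3) (u := 1) hr (by omega) hr one_pos (by nlinarith)
    (by rw [hn]; congr 1; omega), len_double _ one_pos (by omega), len_mersenne (m + 1) r hr]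
  omega

lemma len_second {m r n : ℕ} (hr : r + 1 = 2 ^ (m + 3)) (hn : n + r = 2 ^ (3 * (m + 3))) :
    len n 1 = 2 * m + 7 := by
  obtain ⟨w, hw⟩ : ∃ w, w + 1 = 2 ^ (m + 2) := ⟨2 ^ (m + 2) - 1, by
    have : 0 < 2 ^ (m + 2) := by positivity
    omega⟩
  have h4 : 4 ≤ 2 ^ (m + 2) := by
    rw [pow_add]
    have : 0 < 2 ^ m := by positivity
    omega
  have hx : 2 ^ (m + 3) = 2 * (w + 1) := by rw [pow_succ, hw]; ring
  obtain rfl : r = 2 * w + 1 := by omega
  have hY : 2 ^ (2 * m + 5) = 2 * (w + 1) ^ 2 := by rw [hw]; ring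
  have hw3 : 3 ≤ w := by omega
  rw [len_three (b := m + 3) (t := 2 * m + 5) (u := 2 * w ^ 2 + 2 * w + 1) hr (by omega)
      (by rw [hY]; ring) (by omega) (by rw [hY]; nlinarith) (by rw [hn]; congr 1; omega), hY,
    len_step' (m + 3) (a := 2 * (w + 1) * (2 * w ^ 2 + 2 * w + 1)) (r := 2 * (w + 1) * w)
      (by rw [hx]) (by ring) (by positivity) (by nlinarith),
    len_scale (by positivity) _ _ (by omega) (by nlinarith),
    len_step' (m + 3) (a := 2 * (w + 1) * w) (r := 1) (by rw [hx]) (by ring) one_pos (by nlinarith),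
    ← hx, len_double _ one_pos (by omega), len_mersenne m w hw]
  omega

lemma len_far {m r : ℕ} (hr : r + 1 = 2 ^ (m + 3)) :
    ∃ t₀, ∀ t, t₀ ≤ t → ∀ n, n + r = 2 ^ (m + 3 + t + 1) → 2 * m + 9 ≤ len n 1 := by
  obtain ⟨D, hD⟩ := len_near (m + 2)
  have h8 : 8 ≤ 2 ^ (m + 3) := by
    rw [pow_add]
    have : 0 < 2 ^ m := by positivity
    omega
  refine ⟨D * (r * r) + r + 1, fun t ht n hn => ?_⟩
  have h1 : t < 2 ^ t := Nat.lt_two_pow_self
  obtain ⟨u, hu⟩ : ∃ u, r + u = 2 ^ t := ⟨2 ^ t - r, by omega⟩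
  rw [len_three hr (by omega) hu (by omega) (by rw [← hu]; nlinarith) hn]
  have h2 := hD r u (r * r) hr (by nlinarith) (by omega)
  have e : 2 ^ t * r = r * u + r * r := by rw [← hu]; ring
  rw [e]
  omega

end Pool.Agent.MP_32f763_nt.H80
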