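import Mathlib

/-!
# Integer linear recurrences of linear growth are eventually quasi-linear
-/

namespace Pool.Agent.MP_32f763_nt.H80

open Polynomial Finset Filter Topology

/-- The shift on complex sequences. -/
noncomputable def sh : Module.End ℂ (ℕ → ℂ) := LinearMap.funLeft ℂ ℂ Nat.succ

lemma sh_apply (s : ℕ → ℂ) (i : ℕ) : sh s i = s (i + 1) := rfl

lemma sh_pow (n : ℕ) (s : ℕ → ℂ) (i : ℕ) : (sh ^ n) s i = s (i + n) := by
  induction n generalizing s with
  | zero => rfl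
  | succ n ih => rw [pow_succ, Module.End.mul_apply, ih, sh_apply, add_assoc]

lemma act_eq (Q : ℂ[X]) (s : ℕ → ℂ) (i : ℕ) {n : ℕ} (hn : Q.natDegree < n) :
    aeval sh Q s i = ∑ j ∈ range n, Q.coeff j * s (i + j) := by
  rw [aeval_eq_sum_range' hn, LinearMap.sum_apply, Finset.sum_apply]
  refine Finset.sum_congr rfl fun j _ => ?_
  rw [LinearMap.smul_apply, Pi.smul_apply, sh_pow, smul_eq_mul]

/-- Linear growth. -/
def Lin (v : ℕ → ℂ) : Prop := ∃ C : ℝ, ∀ i, ‖v i‖ ≤ C * (i + 1)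

lemma Lin.nonneg {v : ℕ → ℂ} {C : ℝ} (h : ∀ i, ‖v i‖ ≤ C * (i + 1)) : 0 ≤ C := by
  have := (norm_nonneg _).trans (h 0)
  simpa using this

lemma Lin.act {v : ℕ → ℂ} (hv : Lin v) (Q : ℂ[X]) : Lin (aeval sh Q v) := by
  induction Q using Polynomial.induction_on' with
  | add p q hp hq =>
    obtain ⟨C, hC⟩ := hp
    obtain ⟨D, hD⟩ := hq
    refine ⟨C + D, fun i => ?_⟩
    rw [map_add, LinearMap.add_apply, Pi.add_apply, add_mul]
    exact (norm_add_le _ _).trans (add_le_add (hC i) (hD i))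
  | monomial n a =>
    obtain ⟨C, hC⟩ := hv
    have h0 := Lin.nonneg hC
    refine ⟨‖a‖ * (C * (n + 1)), fun i => ?_⟩
    rw [aeval_monomial, Module.End.mul_apply, Module.algebraMap_end_apply, Pi.smul_apply, sh_pow,
      norm_smul, mul_assoc, mul_assoc]
    gcongr
    refine (hC _).trans ?_
    gcongr
    push_cast
    have h1 : (0 : ℝ) ≤ i := Nat.cast_nonneg i
    have h2 : (0 : ℝ) ≤ n := Nat.cast_nonneg n
    nlinarith [mul_nonneg h1 h2]

lemma Lin.geo_zero {v : ℕ → ℂ} (hv : Lin v) {z : ℂ} (hz : 1 < ‖z‖)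
    (h : ∀ i, v (i + 1) = z * v i) : v = 0 := by
  obtain ⟨C, hC⟩ := hv
  have h1 : ∀ i, v i = z ^ i * v 0 := by
    intro i
    induction i with
    | zero => simp
    | succ i ih => rw [h, ih, pow_succ]; ring
  have h2 : Tendsto (fun i : ℕ => C * ((i : ℝ) ^ 1 / ‖z‖ ^ i + (i : ℝ) ^ 0 / ‖z‖ ^ i)) atTop
      (𝓝 (C * (0 + 0))) :=
    ((tendsto_pow_const_div_const_pow_of_one_lt 1 hz).add
      (tendsto_pow_const_div_const_pow_of_one_lt 0 hz)).const_mul C
  have h3 : ‖v 0‖ ≤ C * (0 + 0) := by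
    refine ge_of_tendsto' h2 fun i => ?_
    have h4 := hC i
    rw [h1 i, norm_mul, norm_pow] at h4
    have h5 : 0 < ‖z‖ ^ i := by positivity
    rw [← add_div, ← mul_div_assoc, le_div_iff₀ h5]
    simpa [mul_comm] using h4
  have h4 : v 0 = 0 := by simpa using h3
  ext i
  rw [h1, h4, mul_zero, Pi.zero_apply]

/-- The difference operator with step `N`. -/
noncomputable def df (N : ℕ) : Module.End ℂ (ℕ → ℂ) := sh ^ N - 1

lemma Lin.quad_zero {v : ℕ → ℂ} (hv : Lin v) (N : ℕ) (h : (df N ^ 3) v = 0) :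
    (df N ^ 2) v = 0 := by
  obtain ⟨C, hC⟩ := hv
  have h0 := Lin.nonneg hC
  set E : Module.End ℂ (ℕ → ℂ) := df N with hE
  have hEa : ∀ (u : ℕ → ℂ) (i : ℕ), u (i + N) = u i + E u i := by
    intro u i
    rw [hE, df, LinearMap.sub_apply, Pi.sub_apply, sh_pow, Module.End.one_apply]
    ring
  have h3 : E (E (E v)) = 0 := by
    rw [← h]; rfl
  have h2 : (E ^ 2) v = E (E v) := rfl
  rw [h2]
  ext i
  have key : ∀ j : ℕ, E (E v) (i + j * N) = E (E v) i ∧
      E v (i + j * N) = E v i + j * E (E v) i ∧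
      2 * v (i + j * N) = 2 * v i + 2 * j * E v i + j * (j - 1) * E (E v) i := by
    intro j
    induction j with
    | zero => simp
    | succ j ih =>
      obtain ⟨a1, a2, a3⟩ := ih
      have e : i + (j + 1) * N = i + j * N + N := by ring
      rw [e, hEa (E (E v)), hEa (E v), hEa v, h3, a1, a2, mul_add 2, a3]
      push_cast
      refine ⟨by simp, by ring, by ring⟩
  by_contra hc
  have hc' : 0 < ‖E (E v) i‖ := norm_pos_iff.mpr hc
  set c := ‖E (E v) i‖ with hcdef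
  set β : ℝ := 2 * (C * (i + N + 1)) + 2 * ‖v i‖ + 2 * ‖E v i‖ with hβ
  obtain ⟨m, hm⟩ := exists_nat_gt (β / c)
  rw [div_lt_iff₀ hc'] at hm
  have e1 := (key (m + 1)).2.2
  have e2 : ((m + 1 : ℕ) : ℂ) * (((m + 1 : ℕ) : ℂ) - 1) * E (E v) i =
      2 * v (i + (m + 1) * N) - 2 * v i - 2 * ((m + 1 : ℕ) : ℂ) * E v i := by
    rw [e1]; ring
  have e3 : ‖((m + 1 : ℕ) : ℂ) * (((m + 1 : ℕ) : ℂ) - 1) * E (E v) i‖ = (m + 1) * (m * c) := by
    have : (((m + 1 : ℕ) : ℂ) - 1) = (m : ℂ) := by push_cast; ring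
    rw [this, norm_mul, norm_mul, Complex.norm_natCast, Complex.norm_natCast]
    push_cast; ring
  have e4 : ‖2 * v (i + (m + 1) * N) - 2 * v i - 2 * ((m + 1 : ℕ) : ℂ) * E v i‖ ≤
      2 * (C * (i + (m + 1) * N + 1)) + 2 * ‖v i‖ + 2 * (m + 1) * ‖E v i‖ := by
    refine (norm_sub_le _ _).trans (add_le_add ((norm_sub_le _ _).trans (add_le_add ?_ ?_)) ?_)
    · rw [norm_mul, Complex.norm_two]
      have := hC (i + (m + 1) * N)
      push_cast at this
      linarith
    · rw [norm_mul, Complex.norm_two]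
    · rw [norm_mul, norm_mul, Complex.norm_two, Complex.norm_natCast]
      push_cast
      rfl
  rw [← e2, e3] at e4
  have hm0 : (0 : ℝ) ≤ m := Nat.cast_nonneg m
  have hi0 : (0 : ℝ) ≤ i := Nat.cast_nonneg i
  have e5 : (m + 1) * β < (m + 1) * (m * c) := by gcongr
  have e6 : 0 ≤ m * (C * (i + 1)) := by positivity
  have e7 : 0 ≤ m * ‖v i‖ := by positivity
  rw [hβ] at e5
  nlinarith

lemma Lin.pow_zero' {v : ℕ → ℂ} (hv : Lin v) (N : ℕ) (d : ℕ) (h : (df N ^ (d + 2)) v = 0) :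
    (df N ^ 2) v = 0 := by
  induction d with
  | zero => simpa using h
  | succ d ih =>
    apply ih
    have h1 : Lin ((df N ^ d) v) := by
      have := hv.act ((X ^ N - 1) ^ d)
      simpa [df] using this
    have h2 := h1.quad_zero N (by rw [← Module.End.mul_apply, ← pow_add, add_comm]; exact h)
    rwa [← Module.End.mul_apply, ← pow_add, add_comm] at h2

lemma exists_common_order (m : Multiset ℂ) (h : ∀ z ∈ m, z ≠ 0 → ∃ n, 0 < n ∧ z ^ n = 1) :
    ∃ N, 0 < N ∧ ∀ z ∈ m, z ≠ 0 → z ^ N = 1 := by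
  induction m using Multiset.induction_on with
  | empty => exact ⟨1, one_pos, by simp⟩
  | cons a m ih =>
    obtain ⟨N, hN, hN'⟩ := ih fun z hz => h z (Multiset.mem_cons_of_mem hz)
    by_cases ha : a = 0
    · refine ⟨N, hN, fun z hz hz0 => ?_⟩
      rcases Multiset.mem_cons.mp hz with rfl | hz
      · exact absurd ha hz0
      · exact hN' z hz hz0
    · obtain ⟨n, hn, hn'⟩ := h a (Multiset.mem_cons_self _ _) ha
      refine ⟨n * N, Nat.mul_pos hn hN, fun z hz hz0 => ?_⟩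
      rcases Multiset.mem_cons.mp hz with rfl | hz
      · rw [pow_mul, hn', one_pow]
      · rw [mul_comm, pow_mul, hN' z hz hz0, one_pow]

/-- A complex polynomial kills all the integer sequences of the family `U`. -/
def Kills (U : Set (ℕ → ℤ)) (Q : ℂ[X]) : Prop := ∀ s ∈ U, aeval sh Q (fun i => (s i : ℂ)) = 0

lemma Kills.mul_left {U : Set (ℕ → ℤ)} {Q : ℂ[X]} (h : Kills U Q) (A : ℂ[X]) : Kills U (A * Q) :=
  fun s hs => by rw [map_mul, Module.End.mul_apply, h s hs, map_zero]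

lemma Kills.descend {U : Set (ℕ → ℤ)} {Q : ℂ[X]} (h : Kills U Q) (hQ : Q.Monic) :
    ∃ Q' : ℚ[X], Q'.Monic ∧ Q'.natDegree = Q.natDegree ∧ Kills U (Q'.map (algebraMap ℚ ℂ)) := by
  obtain ⟨f, hf⟩ := Module.Projective.exists_dual_eq_one ℚ (one_ne_zero : (1 : ℂ) ≠ 0)
  set Q' : ℚ[X] := ∑ j ∈ range (Q.natDegree + 1), monomial j (f (Q.coeff j)) with hQ'
  have hcoeff : ∀ j, j < Q.natDegree + 1 → Q'.coeff j = f (Q.coeff j) := by
    intro j hj
    rw [hQ', finsetSum_coeff]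
    simp only [coeff_monomial]
    rw [Finset.sum_ite_eq' (range (Q.natDegree + 1)) j, if_pos (Finset.mem_range.mpr hj)]
  have hdeg : Q'.natDegree ≤ Q.natDegree := by
    rw [hQ']
    refine natDegree_sum_le_of_forall_le _ _ fun j hj => (natDegree_monomial_le _).trans ?_
    exact Nat.lt_succ_iff.mp (Finset.mem_range.mp hj)
  have htop : Q'.coeff Q.natDegree = 1 := by
    rw [hcoeff _ (Nat.lt_succ_self _), hQ.coeff_natDegree, hf]
  refine ⟨Q', monic_of_natDegree_le_of_coeff_eq_one _ hdeg htop,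
    le_antisymm hdeg (le_natDegree_of_ne_zero (by rw [htop]; exact one_ne_zero)), fun s hs => ?_⟩
  ext i
  have h1 := congrFun (h s hs) i
  rw [act_eq _ _ _ (Nat.lt_succ_self _)] at h1
  have h2 := congrArg f h1
  rw [act_eq _ _ _ (n := Q.natDegree + 1) (Nat.lt_succ_of_le (natDegree_map_le.trans hdeg))]
  rw [Pi.zero_apply, map_zero, map_sum] at h2
  have h3 : ∑ j ∈ range (Q.natDegree + 1), (Q'.map (algebraMap ℚ ℂ)).coeff j * (s (i + j) : ℂ) =
      algebraMap ℚ ℂ (∑ j ∈ range (Q.natDegree + 1), f (Q.coeff j * (s (i + j) : ℂ))) := by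
    rw [map_sum]
    refine Finset.sum_congr rfl fun j hj => ?_
    rw [coeff_map, hcoeff j (Finset.mem_range.mp hj), mul_comm (Q.coeff j), ← zsmul_eq_mul,
      map_zsmul, zsmul_eq_mul, map_mul, map_intCast, mul_comm]
  rw [h3, h2, map_zero, Pi.zero_apply]

theorem quasi_linear (U : Set (ℕ → ℤ)) (P : ℤ[X]) (hP : P.Monic)
    (hk : Kills U (P.map (Int.castRingHom ℂ))) (hlin : ∀ s ∈ U, Lin fun i => (s i : ℂ)) :
    ∃ M N : ℕ, 0 < N ∧ ∀ s ∈ U, ∀ i, M ≤ i → s (i + 2 * N) + s i = 2 * s (i + N) := by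
  classical
  have hmap : (P.map (algebraMap ℤ ℚ)).map (algebraMap ℚ ℂ) = P.map (Int.castRingHom ℂ) := by
    rw [Polynomial.map_map]; congr 1
  have hex : ∃ d, ∃ Q : ℚ[X], Q.Monic ∧ Q.natDegree = d ∧ Kills U (Q.map (algebraMap ℚ ℂ)) :=
    ⟨_, P.map (algebraMap ℤ ℚ), hP.map _, rfl, by rwa [hmap]⟩
  obtain ⟨μ, hμ, hμd, hμk⟩ := Nat.find_spec hex
  have hmin : ∀ Q : ℂ[X], Q.Monic → Kills U Q → μ.natDegree ≤ Q.natDegree := by
    intro Q hQ hQk
    obtain ⟨Q', h1, h2, h3⟩ := hQk.descend hQ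
    rw [hμd]
    exact Nat.find_min' hex ⟨Q', h1, h2, h3⟩
  have hdvd : μ ∣ P.map (algebraMap ℤ ℚ) := by
    rw [← modByMonic_eq_zero_iff_dvd hμ]
    by_contra hr
    set r := P.map (algebraMap ℤ ℚ) %ₘ μ with hrdef
    have hrk : Kills U (r.map (algebraMap ℚ ℂ)) := by
      intro s hs
      have e := modByMonic_add_div (P.map (algebraMap ℤ ℚ)) μ
      have e2 : r.map (algebraMap ℚ ℂ) = P.map (Int.castRingHom ℂ) -
          (P.map (algebraMap ℤ ℚ) /ₘ μ).map (algebraMap ℚ ℂ) * μ.map (algebraMap ℚ ℂ) := by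
        rw [← hmap, ← Polynomial.map_mul, ← Polynomial.map_sub, mul_comm]
        congr 1
        rw [eq_sub_iff_add_eq]
        exact e
      rw [e2, map_sub, LinearMap.sub_apply, hk s hs, (hμk.mul_left _) s hs, sub_zero]
    have hr' : r.map (algebraMap ℚ ℂ) ≠ 0 := Polynomial.map_ne_zero hr
    have h1 := hmin _ (monic_mul_leadingCoeff_inv hr') (by rw [mul_comm]; exact hrk.mul_left _)
    rw [natDegree_mul_leadingCoeff_inv _ hr', natDegree_map] at h1
    have h2 : r.degree < μ.degree := degree_modByMonic_lt _ hμ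
    exact absurd (natDegree_lt_natDegree hr h2) (not_lt.mpr h1)
  obtain ⟨μ', hμ'⟩ := IsIntegrallyClosed.eq_map_mul_C_of_dvd ℚ hP hdvd
  rw [hμ.leadingCoeff, C_1, mul_one] at hμ'
  have hμC : μ.map (algebraMap ℚ ℂ) = μ'.map (Int.castRingHom ℂ) := by
    rw [← hμ', Polynomial.map_map]; congr 1
  set ν : ℂ[X] := μ.map (algebraMap ℚ ℂ) with hν
  have hνm : ν.Monic := hμ.map _
  have hroots : ∀ z ∈ ν.roots, ‖z‖ ≤ 1 := by
    intro z hz
    by_contra hz1
    rw [not_le] at hz1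
    have hz' : ν.IsRoot z := (mem_roots hνm.ne_zero).mp hz
    obtain ⟨ρ, hρ⟩ := dvd_iff_isRoot.mpr hz'
    have hρm : ρ.Monic := (monic_X_sub_C z).of_mul_monic_left (hρ ▸ hνm)
    have hρk : Kills U ρ := by
      intro s hs
      refine ((hlin s hs).act ρ).geo_zero hz1 fun i => ?_
      have h1 := congrFun (hμk s hs) i
      rw [hρ, map_mul, Module.End.mul_apply, map_sub, aeval_X, aeval_C, LinearMap.sub_apply,
        Pi.sub_apply, sh_apply, Module.algebraMap_end_apply, Pi.smul_apply, smul_eq_mul,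
        Pi.zero_apply, sub_eq_zero] at h1
      exact h1
    have h1 := hmin ρ hρm hρk
    have h2 : ν.natDegree = 1 + ρ.natDegree := by
      rw [hρ, (monic_X_sub_C z).natDegree_mul hρm, natDegree_X_sub_C]
    rw [hν, natDegree_map] at h2
    omega
  have hmahler : (μ'.map (Int.castRingHom ℂ)).mahlerMeasure = 1 := by
    rw [← hμC, mahlerMeasure_eq_leadingCoeff_mul_prod_roots, hνm.leadingCoeff, norm_one, one_mul]
    refine Multiset.prod_eq_one fun x hx => ?_
    obtain ⟨z, hz, rfl⟩ := Multiset.mem_map.mp hx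
    exact max_eq_left (hroots z hz)
  obtain ⟨N, hN, hN'⟩ := exists_common_order ν.roots fun z hz hz0 =>
    pow_eq_one_of_mahlerMeasure_eq_one hmahler hz0 (by
      rw [hμC] at hz
      exact hz)
  have hdvd2 : ν ∣ (X * (X ^ N - 1)) ^ (Multiset.card ν.roots) := by
    conv_lhs => rw [(IsAlgClosed.splits ν).eq_prod_roots_of_monic hνm]
    rw [← Multiset.prod_replicate, ← Multiset.map_const']
    refine Multiset.prod_dvd_prod_of_dvd _ _ fun z hz => ?_
    rw [dvd_iff_isRoot]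
    by_cases hz0 : z = 0
    · simp [hz0]
    · simp [hN' z hz hz0]
  obtain ⟨A, hA⟩ := hdvd2
  set d := Multiset.card ν.roots with hd
  refine ⟨d, N, hN, fun s hs i hi => ?_⟩
  have h1 : aeval sh ((X ^ N - 1) ^ 2 * A * ν) (fun i => (s i : ℂ)) = 0 := (hμk.mul_left _) s hs
  have h2 : (X ^ N - 1) ^ 2 * A * ν = (X ^ N - 1) ^ (d + 2) * X ^ d := by
    rw [mul_assoc, mul_comm A, ← hA, mul_pow]; ring
  rw [h2, map_mul, Module.End.mul_apply] at h1
  have h3 := ((hlin s hs).act (X ^ d)).pow_zero' N d (by simpa [df] using h1)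
  obtain ⟨i, rfl⟩ := Nat.exists_eq_add_of_le' hi
  have h4 := congrFun h3 i
  simp only [df, sq, Module.End.mul_apply, LinearMap.sub_apply, Pi.sub_apply, sh_pow, map_pow, aeval_X,
    Module.End.one_apply, map_sub, Pi.zero_apply] at h4
  have e1 : i + N + N + d = i + d + 2 * N := by ring
  have e2 : i + N + d = i + d + N := by ring
  rw [e1, e2] at h4
  have h5 : ((s (i + d + 2 * N) + s (i + d) : ℤ) : ℂ) = ((2 * s (i + d + N) : ℤ) : ℂ) := by
    push_cast
    linear_combination h4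
  exact_mod_cast h5

end Pool.Agent.MP_32f763_nt.H80
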