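import Pool.Agent.MP_32f763_nt.H80.Len
import Pool.Agent.MP_32f763_nt.H80.Quasi

/-!
# The length sequence is not `k`-regular
-/

namespace Pool.Agent.MP_32f763_nt.H80

open Polynomial Finset

lemma L_eq (n : ℕ) : L n = (len n 1 : ℤ) := rfl

lemma iter_le {k c : ℕ} (hc : c < k) (n₀ i : ℕ) :
    (fun n => k * n + c)^[i] n₀ + 1 ≤ k ^ i * (n₀ + 1) := by
  induction i with
  | zero => simp
  | succ i ih =>
    rw [Function.iterate_succ_apply', pow_succ', mul_assoc]
    nlinarith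

lemma iter_zero (k n₀ i : ℕ) : (fun n => k * n + 0)^[i] n₀ = k ^ i * n₀ := by
  induction i with
  | zero => simp
  | succ i ih => rw [Function.iterate_succ_apply', ih, pow_succ']; ring

lemma iter_top (c i : ℕ) : (fun n => (c + 1) * n + c)^[i] 0 + 1 = (c + 1) ^ i := by
  induction i with
  | zero => simp
  | succ i ih => rw [Function.iterate_succ_apply', pow_succ', ← ih]; ring

theorem regular_quasi {k c : ℕ} (hc : c < k) (h : IsRegular k L) :
    ∃ M N : ℕ, 0 < N ∧ ∀ e r n₀ : ℕ, r < k ^ e → ∀ i, M ≤ i →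
      L (k ^ e * (fun n => k * n + c)^[i + 2 * N] n₀ + r) +
        L (k ^ e * (fun n => k * n + c)^[i] n₀ + r) =
        2 * L (k ^ e * (fun n => k * n + c)^[i + N] n₀ + r) := by
  set V := Submodule.span ℤ (kernel k L) with hV
  have : Module.Finite ℤ V := Module.Finite.iff_fg.mpr h
  set φ : ℕ → ℕ := fun n => k * n + c with hφ
  set T : (ℕ → ℤ) →ₗ[ℤ] (ℕ → ℤ) := LinearMap.funLeft ℤ ℤ φ with hT
  have hmaps : ∀ g ∈ V, T g ∈ V := by
    intro g hg
    induction hg using Submodule.span_induction with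
    | mem g hg =>
      obtain ⟨e, r, hr, rfl⟩ := hg
      refine Submodule.subset_span ⟨e + 1, k ^ e * c + r, ?_, ?_⟩
      · rw [pow_succ]; nlinarith
      · ext n
        simp only [hT, hφ, LinearMap.funLeft_apply]
        congr 1
        ring
    | zero => simp
    | add u v _ _ hu hv => rw [map_add]; exact V.add_mem hu hv
    | smul a u _ hu => rw [map_smul]; exact V.smul_mem a hu
  set T' : Module.End ℤ V := T.restrict hmaps with hT'
  have hpow : ∀ (j : ℕ) (g : V) (n : ℕ), (((T' ^ j) g : V) : ℕ → ℤ) n = (g : ℕ → ℤ) (φ^[j] n) := by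
    intro j
    induction j with
    | zero => intro g n; rfl
    | succ j ih =>
      intro g n
      rw [pow_succ, Module.End.mul_apply, ih, Function.iterate_succ_apply']
      rfl
  obtain ⟨P, hP, hPT⟩ := LinearMap.exists_monic_and_aeval_eq_zero ℤ T'
  refine (quasi_linear
    {s | ∃ e r n₀ : ℕ, r < k ^ e ∧ s = fun i => L (k ^ e * φ^[i] n₀ + r)} P hP ?_ ?_).imp
    fun M => Exists.imp fun N hMN =>
      ⟨hMN.1, fun e r n₀ hr i hi => hMN.2 _ ⟨e, r, n₀, hr, rfl⟩ i hi⟩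
  · rintro s ⟨e, r, n₀, hr, rfl⟩
    ext i
    let g : V := ⟨fun n => L (k ^ e * n + r), Submodule.subset_span ⟨e, r, hr, rfl⟩⟩
    have h1 : ((aeval T' P g : V) : ℕ → ℤ) (φ^[i] n₀) = 0 := by rw [hPT]; rfl
    rw [aeval_eq_sum_range, LinearMap.sum_apply, Submodule.coe_sum, Finset.sum_apply] at h1
    rw [act_eq _ _ _ (n := P.natDegree + 1) (Nat.lt_succ_of_le natDegree_map_le), Pi.zero_apply]
    have h2 := congrArg (Int.cast : ℤ → ℂ) h1
    rw [Int.cast_sum, Int.cast_zero] at h2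
    rw [← h2]
    refine Finset.sum_congr rfl fun j _ => ?_
    rw [LinearMap.smul_apply, Submodule.coe_smul, Pi.smul_apply, hpow, smul_eq_mul, Int.cast_mul,
      coeff_map, ← Function.iterate_add_apply, add_comm j i]
    rfl
  · rintro s ⟨e, r, n₀, hr, rfl⟩
    refine ⟨(3 * (k * e + k + n₀) + 4 : ℕ), fun i => ?_⟩
    have h1 : k ^ e * φ^[i] n₀ + r < 2 ^ (k * (e + i) + n₀) := by
      have a1 := iter_le hc n₀ i
      have a2 : k ^ (e + i) ≤ 2 ^ (k * (e + i)) := by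
        rw [pow_mul]
        exact Nat.pow_le_pow_left Nat.lt_two_pow_self.le _
      have a3 : n₀ + 1 ≤ 2 ^ n₀ := Nat.lt_two_pow_self
      calc k ^ e * φ^[i] n₀ + r < k ^ e * (φ^[i] n₀ + 1) := by rw [mul_add, mul_one]; omega
        _ ≤ k ^ e * (k ^ i * (n₀ + 1)) := Nat.mul_le_mul_left _ a1
        _ = k ^ (e + i) * (n₀ + 1) := by ring
        _ ≤ 2 ^ (k * (e + i)) * 2 ^ n₀ := Nat.mul_le_mul a2 a3
        _ = _ := by rw [← pow_add]
    have h2 := len_le h1
    have h3 : len (k ^ e * φ^[i] n₀ + r) 1 ≤ (3 * (k * e + k + n₀) + 4) * (i + 1) := by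
      refine h2.trans ?_
      nlinarith [Nat.zero_le (k * e * i), Nat.zero_le (n₀ * i)]
    simp only [L_eq, Int.cast_natCast, Complex.norm_natCast]
    exact_mod_cast h3

lemma linear_of_second {s : ℕ → ℤ} {M N : ℕ}
    (h : ∀ i, M ≤ i → s (i + 2 * N) + s i = 2 * s (i + N)) {i : ℕ} (hi : M ≤ i) (j : ℕ) :
    s (i + j * N) = s i + j * (s (i + N) - s i) := by
  have key : ∀ j : ℕ, s (i + j * N) = s i + j * (s (i + N) - s i) ∧
      s (i + (j + 1) * N) = s i + (j + 1) * (s (i + N) - s i) := by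
    intro j
    induction j with
    | zero => simp
    | succ j ih =>
      refine ⟨by simpa using ih.2, ?_⟩
      have h1 := h (i + j * N) (by omega)
      have e1 : i + j * N + 2 * N = i + (j + 1 + 1) * N := by ring
      have e2 : i + j * N + N = i + (j + 1) * N := by ring
      rw [e1, e2, ih.1, ih.2] at h1
      push_cast
      linarith
  exact (key j).1

lemma two_pow_mul_odd {a b u v : ℕ} (hu : Odd u) (hv : Odd v) (h : 2 ^ a * u = 2 ^ b * v) :
    a = b := by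
  have h1 := congrArg (padicValNat 2) h
  have hu0 : u ≠ 0 := hu.pos.ne'
  have hv0 : v ≠ 0 := hv.pos.ne'
  rw [padicValNat.mul (by positivity) hu0, padicValNat.mul (by positivity) hv0,
    padicValNat.prime_pow, padicValNat.prime_pow,
    padicValNat.eq_zero_of_not_dvd hu.not_two_dvd_nat,
    padicValNat.eq_zero_of_not_dvd hv.not_two_dvd_nat] at h1
  simpa using h1

lemma diff_pow {x y a b : ℕ} (hx : x = 2 ^ a) (hy : x + y = 2 ^ b) (h0 : 0 < y) :
    ∃ u d, Odd u ∧ y = 2 ^ a * u ∧ b = a + d ∧ u + 1 = 2 ^ d := by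
  have hab : a < b := (Nat.pow_lt_pow_iff_right one_lt_two).mp (by omega)
  obtain ⟨d, rfl⟩ := Nat.exists_eq_add_of_lt hab
  obtain ⟨u, hu⟩ : ∃ u, u + 1 = 2 ^ (d + 1) := ⟨2 ^ (d + 1) - 1, by
    have : 0 < 2 ^ (d + 1) := by positivity
    omega⟩
  refine ⟨u, d + 1, ?_, ?_, by ring, hu⟩
  · rw [pow_succ] at hu
    exact ⟨2 ^ d - 1, by
      have : 0 < 2 ^ d := by positivity
      omega⟩
  · rw [add_assoc, pow_add, ← hu, mul_add, mul_one, hx] at hy
    omega

lemma not_four_powers {A K r s K' : ℕ} (hA : 0 < A) (hK : K = 2 ^ s * K') (hK' : Odd K')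
    (h1 : 1 < K') (h : ∀ j, ∃ t, A * K ^ j + r = 2 ^ t) : False := by
  obtain ⟨a, ha⟩ := h 0
  obtain ⟨b, hb⟩ := h 1
  obtain ⟨c, hc⟩ := h 2
  obtain ⟨d, hd⟩ := h 3
  have h2 : 0 < 2 ^ s := by positivity
  obtain ⟨κ, hκ⟩ : ∃ κ, K = κ + 2 := ⟨K - 2, by
    have : 2 ≤ K := by nlinarith
    omega⟩
  obtain ⟨u₁, d₁, o₁, e₁, f₁, g₁⟩ := diff_pow (y := A * (κ + 1)) ha
    (by rw [← hb, hκ]; ring) (by positivity)
  obtain ⟨u₂, d₂, o₂, e₂, f₂, g₂⟩ := diff_pow (y := K * (A * (κ + 1))) hb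
    (by rw [← hc, hκ]; ring) (by rw [hκ]; positivity)
  obtain ⟨u₃, d₃, o₃, e₃, -, -⟩ := diff_pow (y := K * (K * (A * (κ + 1)))) hc
    (by rw [← hd, hκ]; ring) (by rw [hκ]; positivity)
  have p1 : 2 ^ (a + s) * (K' * u₁) = 2 ^ b * u₂ := by rw [← e₂, e₁, hK]; ring
  have p2 : 2 ^ (b + s) * (K' * u₂) = 2 ^ c * u₃ := by
    rw [← e₃, e₂]
    conv_rhs => rw [hK]
    ring
  have q1 := two_pow_mul_odd (hK'.mul o₁) o₂ p1
  have q2 := two_pow_mul_odd (hK'.mul o₂) o₃ p2
  have q3 : d₁ = d₂ := by omega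
  have q4 : u₁ = u₂ := by rw [q3] at g₁; omega
  rw [q1, q4] at p1
  have q5 := Nat.eq_of_mul_eq_mul_left (by positivity) p1
  have := o₂.pos
  nlinarith

theorem not_regular_odd {k s k' : ℕ} (hk : k = 2 ^ s * k') (ho : Odd k') (h1 : 1 < k') :
    ¬ IsRegular k L := by
  intro h
  have hk0 : 0 < k := by rw [hk]; positivity
  obtain ⟨M, N, hN, hMN⟩ := regular_quasi hk0 h
  simp only [iter_zero] at hMN
  set i := M + N with hi
  set e := s * i + 1 with he
  set r := 2 ^ (s * (e + i)) with hr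
  have hr1 : r < k ^ e := by
    have a1 : 2 ^ (s * i) < k' ^ e :=
      calc 2 ^ (s * i) < 2 ^ e := Nat.pow_lt_pow_right one_lt_two (by omega)
        _ ≤ k' ^ e := Nat.pow_le_pow_left h1 _
    rw [hr, hk, mul_pow, ← pow_mul, mul_add, pow_add]
    exact Nat.mul_lt_mul_of_pos_left a1 (by positivity)
  have hcop : Nat.Coprime 2 (k' ^ (e + i)) :=
    Nat.Coprime.pow_right _ (Nat.coprime_two_left.mpr ho)
  have hmod := (Nat.ModEq.pow_totient hcop).symm
  have hφ : 0 < Nat.totient (k' ^ (e + i)) := Nat.totient_pos.mpr (by positivity)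
  have hgt : 1 < 2 ^ Nat.totient (k' ^ (e + i)) := Nat.one_lt_two_pow hφ.ne'
  obtain ⟨n₀, hn₀⟩ := (Nat.modEq_iff_dvd' hgt.le).mp hmod
  have hn0 : 0 < n₀ := Nat.pos_of_ne_zero fun h0 => by rw [h0, mul_zero] at hn₀; omega
  have hpow : k ^ e * (k ^ i * n₀) + r = 2 ^ (s * (e + i) + Nat.totient (k' ^ (e + i))) := by
    have a1 : 2 ^ Nat.totient (k' ^ (e + i)) = k' ^ (e + i) * n₀ + 1 := by omega
    rw [pow_add 2, a1, ← mul_assoc, ← pow_add, hk, mul_pow, ← pow_mul, hr]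
    ring
  set f : ℕ → ℤ := fun j => L (k ^ e * (k ^ j * n₀) + r) with hf
  have hf1 : ∀ j, 1 ≤ f j := fun j => by
    have : 1 ≤ len (k ^ e * (k ^ j * n₀) + r) 1 := len_pos one_pos (by
      have : 0 < r := by rw [hr]; positivity
      omega)
    simp only [hf, L_eq]
    exact_mod_cast this
  have hf2 : f i = 1 := by
    simp only [hf, L_eq, hpow]
    have := len_pow (s * (e + i) + Nat.totient (k' ^ (e + i))) one_pos
    rw [mul_one] at this
    exact_mod_cast this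
  have hsec : ∀ j, M ≤ j → f (j + 2 * N) + f j = 2 * f (j + N) := hMN e r n₀ hr1
  have hf3 : f (i + N) = 1 := by
    have a1 := hsec M le_rfl
    have a2 : M + 2 * N = i + N := by omega
    rw [a2, ← hi, hf2] at a1
    linarith [hf1 M, hf1 (i + N)]
  refine not_four_powers (A := k ^ e * (k ^ i * n₀)) (K := k ^ N) (r := r) (s := s * N)
    (K' := k' ^ N) (by positivity) (by rw [hk, mul_pow, ← pow_mul]) ho.pow
    (Nat.one_lt_pow hN.ne' h1) fun j => ?_
  have a1 := linear_of_second hsec (show M ≤ i by omega) j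
  rw [hf3, hf2, sub_self, mul_zero, add_zero] at a1
  simp only [hf, L_eq] at a1
  have a2 : k ^ e * (k ^ i * n₀) * (k ^ N) ^ j = k ^ e * (k ^ (i + j * N) * n₀) := by ring
  rw [a2]
  exact len_eq_one (by positivity) (by exact_mod_cast a1)

theorem not_regular_pow {s : ℕ} (hs : 0 < s) : ¬ IsRegular (2 ^ s) L := by
  intro h
  obtain ⟨c, hc⟩ : ∃ c, 2 ^ s = c + 1 := ⟨2 ^ s - 1, by
    have : 0 < 2 ^ s := by positivity
    omega⟩
  rw [hc] at h
  obtain ⟨M, N, hN, hMN⟩ := regular_quasi (Nat.lt_succ_self c) h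
  obtain ⟨m, hm⟩ : ∃ m, m + 2 = s * N * (M + 2) := ⟨s * N * (M + 2) - 2, by
    have : 0 < s * N := Nat.mul_pos hs hN
    have : 2 ≤ s * N * (M + 2) := by nlinarith
    omega⟩
  obtain ⟨r, hr⟩ : ∃ r, r + 1 = 2 ^ (m + 3) := ⟨2 ^ (m + 3) - 1, by
    have : 0 < 2 ^ (m + 3) := by positivity
    omega⟩
  have hr0 : 0 < r := by
    have : 1 < 2 ^ (m + 3) := Nat.one_lt_two_pow (by omega)
    omega
  set e := 2 * (m + 3) + 1 with he
  obtain ⟨g, hg⟩ : ∃ g, s * (e + M) = g + e := ⟨s * (e + M) - e, by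
    have : e ≤ s * (e + M) := by nlinarith
    omega⟩
  have hsM : s * M ≤ m + 2 := by rw [hm]; nlinarith
  have hle : 2 ^ g * r < (c + 1) ^ e := by
    rw [← hc, ← pow_mul]
    calc 2 ^ g * r < 2 ^ g * 2 ^ (m + 3) := Nat.mul_lt_mul_of_pos_left (by omega) (by positivity)
      _ = 2 ^ (g + (m + 3)) := by rw [← pow_add]
      _ ≤ 2 ^ (s * e) := Nat.pow_le_pow_right two_pos (by rw [mul_add] at hg; omega)
  obtain ⟨r', hr'⟩ := Nat.exists_eq_add_of_le hle.le
  have hr'lt : r' < (c + 1) ^ e := by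
    have : 0 < 2 ^ g * r := by positivity
    omega
  set f : ℕ → ℤ := fun j => L ((c + 1) ^ e * (fun n => (c + 1) * n + c)^[j] 0 + r') with hf
  have hsec : ∀ j, M ≤ j → f (j + 2 * N) + f j = 2 * f (j + N) := hMN e r' 0 hr'lt
  have hval : ∀ j, ∃ n, n + r = 2 ^ (e + s * j) ∧ f (M + j) = len n 1 := by
    intro j
    have a1 : r < 2 ^ (e + s * j) :=
      calc r < 2 ^ (m + 3) := by omega
        _ ≤ _ := Nat.pow_le_pow_right two_pos (by omega)
    obtain ⟨n, hn⟩ := Nat.exists_eq_add_of_lt a1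
    refine ⟨n + 1, by omega, ?_⟩
    have a2 := iter_top c (M + j)
    have a3 : (c + 1) ^ e * (fun n => (c + 1) * n + c)^[M + j] 0 + r' = 2 ^ g * (n + 1) := by
      have b1 : (c + 1) ^ e * (c + 1) ^ (M + j) = 2 ^ g * 2 ^ (e + s * j) := by
        rw [← hc, ← pow_mul, ← pow_mul, ← pow_add, ← pow_add]
        congr 1
        linarith
      rw [← a2, hn, mul_add, mul_one] at b1
      have b2 : 2 ^ g * (r + n + 1) = 2 ^ g * r + 2 ^ g * (n + 1) := by ring
      omega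
    simp only [hf, L_eq, a3]
    rw [len_double g one_pos (by omega)]
  obtain ⟨n₁, hn₁, v₁⟩ := hval 0
  obtain ⟨n₂, hn₂, v₂⟩ := hval ((M + 2) * N)
  rw [len_first hr (by simpa using hn₁), add_zero] at v₁
  rw [len_second hr (by
    rw [hn₂]; congr 1
    have : s * ((M + 2) * N) = m + 2 := by rw [hm]; ring
    omega)] at v₂
  have hslope : f (M + N) - f M = 0 := by
    have a1 := linear_of_second hsec le_rfl (M + 2)
    rw [v₂, ← v₁] at a1
    have a2 : ((M + 2 : ℕ) : ℤ) * (f (M + N) - f M) = 0 := by linarith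
    exact (mul_eq_zero.mp a2).resolve_left (by positivity)
  obtain ⟨t₀, ht₀⟩ := len_far hr
  obtain ⟨n₃, hn₃, v₃⟩ := hval (t₀ * N)
  have a1 := linear_of_second hsec le_rfl t₀
  rw [hslope, mul_zero, add_zero, v₃, v₁] at a1
  have a2 := ht₀ (m + 3 + s * (t₀ * N)) (by nlinarith [Nat.mul_pos hs hN]) n₃
    (by rw [hn₃]; congr 1; omega)
  omega

theorem main {k : ℕ} (hk : 2 ≤ k) : ¬ IsRegular k L := by
  obtain ⟨s, k', ho, rfl⟩ := Nat.exists_eq_two_pow_mul_odd (n := k) (by omega)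
  rcases (Nat.succ_le_of_lt ho.pos).eq_or_lt with h | h
  · obtain rfl : k' = 1 := h.symm
    rw [mul_one] at hk ⊢
    refine not_regular_pow (Nat.pos_of_ne_zero fun h0 => ?_)
    simp [h0] at hk
  · exact not_regular_odd rfl ho h

end Pool.Agent.MP_32f763_nt.H80
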